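import Mathlib
import Pool.Agent.R718.FanoSum

set_option autoImplicit false

namespace Pool.Agent.Results.MP_96ff56_al.OddDegree

open Finset Equiv

/-! ## Definitions -/

/-- The space `V^{⊗ dn}` for `V = ℂ^m`, as `d` blocks of `n` factors each: `w i` is the coefficient
of the basis tensor `⊗_{a, b} e_{i a b}` (`a` is the block, `b` the place inside the block). -/
abbrev Tens (d n m : ℕ) : Type := (Fin d → Fin n → Fin m) → ℂ

variable {d n m : ℕ}

/-- The action `g ⊗ ... ⊗ g` of a matrix `g` on `V^{⊗ dn}`. -/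
def act (g : Matrix (Fin m) (Fin m) ℂ) : Tens d n m →ₗ[ℂ] Tens d n m where
  toFun w := fun i => ∑ j, (∏ a, ∏ b, g (i a b) (j a b)) * w j
  map_add' v w := by
    funext i
    simp only [Pi.add_apply, mul_add, Finset.sum_add_distrib]
  map_smul' c w := by
    funext i
    simp only [Pi.smul_apply, smul_eq_mul, RingHom.id_apply, Finset.mul_sum]
    exact Finset.sum_congr rfl fun j _ => by ring

/-- `S^d(S^n V) ⊆ V^{⊗ dn}`: the tensors invariant under the permutations of the places inside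
each block and under the permutations of the blocks. -/
def symSym (d n m : ℕ) : Submodule ℂ (Tens d n m) where
  carrier := {w | (∀ (σ : Fin d → Perm (Fin n)) (i : Fin d → Fin n → Fin m),
      w (fun a b => i a (σ a b)) = w i) ∧
    ∀ (π : Perm (Fin d)) (i : Fin d → Fin n → Fin m), w (fun a => i (π a)) = w i}
  add_mem' := by
    rintro v w ⟨h1, h2⟩ ⟨h3, h4⟩
    exact ⟨fun σ i => by simp only [Pi.add_apply, h1, h3],
      fun π i => by simp only [Pi.add_apply, h2, h4]⟩
  zero_mem' := ⟨fun _ _ => rfl, fun _ _ => rfl⟩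
  smul_mem' := by
    rintro c w ⟨h1, h2⟩
    exact ⟨fun σ i => by simp only [Pi.smul_apply, h1], fun π i => by simp only [Pi.smul_apply, h2]⟩

/-- The Hermite-Hadamard-Howe map `h_{d,n} : V^{⊗ dn} → V^{⊗ nd}`: regroup the factors (the `b`-th
new block collects the `b`-th factors of the `d` old blocks), symmetrise inside each of the `n` new
blocks, and symmetrise over the `n` new blocks. -/
noncomputable def hhh (d n m : ℕ) : Tens d n m →ₗ[ℂ] Tens n d m where
  toFun w := fun u => ((d.factorial ^ n * n.factorial : ℕ) : ℂ)⁻¹ *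
    ∑ ρ : Perm (Fin n), ∑ σ : Fin n → Perm (Fin d), w (fun a b => u (ρ b) (σ b a))
  map_add' v w := by
    funext i
    simp only [Pi.add_apply, mul_add, Finset.sum_add_distrib]
  map_smul' c w := by
    funext i
    simp only [Pi.smul_apply, smul_eq_mul, RingHom.id_apply, ← Finset.mul_sum]
    ring

/-- `w` is a highest weight vector of weight `(k^l) = (k, ..., k, 0, ..., 0)` (`l` entries `k`), or
zero: it is fixed by the upper unitriangular matrices, and the diagonal matrices act on it by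
`t ↦ (t_1 ⋯ t_l)^k`. -/
structure IsHighest (k l : ℕ) (w : Tens d n m) : Prop where
  unip : ∀ g : Matrix (Fin m) (Fin m) ℂ, (∀ i j, j < i → g i j = 0) → (∀ i, g i i = 1) →
    act g w = w
  weight : ∀ t : Fin m → ℂ, (∀ i, t i ≠ 0) →
    act (Matrix.diagonal t) w = (∏ i : Fin m, if (i : ℕ) < l then t i ^ k else 1) • w

/-- The `S_{(d^n)}V`-isotypic component of `S^d(S^n V)`, `V = ℂ^m`: the `GL(V)`-submodule generated
by the highest weight vectors of weight `(d^n)` in `S^d(S^n V)`. -/
def isotypic (d n m : ℕ) : Submodule ℂ (Tens d n m) :=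
  Submodule.span ℂ {x | ∃ (g : GL (Fin m) ℂ) (w : Tens d n m),
    w ∈ symSym d n m ∧ IsHighest d n w ∧ x = act g.val w}

/-! ## The pairing with products of linear forms -/

/-- The pairing of a tensor with `⊗_a X_a^{⊗ n}`. -/
def ev (w : Tens d n m) (X : Fin d → Fin m → ℂ) : ℂ := ∑ i, w i * ∏ a, ∏ b, X a (i a b)

lemma sum_prod_prod (F : Fin d → Fin n → Fin m → ℂ) :
    ∑ i : Fin d → Fin n → Fin m, ∏ a, ∏ b, F a b (i a b) = ∏ a, ∏ b, ∑ x, F a b x := by
  have h : ∀ a, ∏ b, ∑ x, F a b x = ∑ y : Fin n → Fin m, ∏ b, F a b (y b) := fun a =>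
    Fintype.prod_sum _
  simp only [h]
  rw [Fintype.prod_sum]

lemma ev_act (g : Matrix (Fin m) (Fin m) ℂ) (w : Tens d n m) (X : Fin d → Fin m → ℂ) :
    ev (act g w) X = ev w (fun a j => ∑ i, X a i * g i j) := by
  unfold ev
  have h1 : ∀ j : Fin d → Fin n → Fin m, ∏ a, ∏ b, ∑ x, X a x * g x (j a b) =
      ∑ i : Fin d → Fin n → Fin m, ∏ a, ∏ b, X a (i a b) * g (i a b) (j a b) := fun j =>
    (sum_prod_prod (fun a b x => X a x * g x (j a b))).symm
  simp only [h1, act, LinearMap.coe_mk, AddHom.coe_mk, Finset.sum_mul, Finset.mul_sum]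
  rw [Finset.sum_comm]
  refine Finset.sum_congr rfl fun j _ => Finset.sum_congr rfl fun i _ => ?_
  simp only [Finset.prod_mul_distrib]
  ring

lemma ev_scale (w : Tens d n m) (X : Fin d → Fin m → ℂ) (r : Fin d → ℂ) :
    ev w (fun a j => r a * X a j) = (∏ a, r a ^ n) * ev w X := by
  unfold ev
  rw [Finset.mul_sum]
  refine Finset.sum_congr rfl fun i _ => ?_
  simp only [Finset.prod_mul_distrib, Finset.prod_const, Finset.card_univ, Fintype.card_fin]
  ring

lemma ev_continuous (w : Tens d n m) : Continuous (fun X : Fin d → Fin m → ℂ => ev w X) := by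
  unfold ev
  fun_prop

lemma ev_perm (w : Tens d n m) (hw : w ∈ symSym d n m) (X : Fin d → Fin m → ℂ)
    (π : Perm (Fin d)) : ev w (fun a => X (π a)) = ev w X := by
  unfold ev
  let E : (Fin d → Fin n → Fin m) ≃ (Fin d → Fin n → Fin m) :=
    { toFun := fun i a => i (π a)
      invFun := fun i a => i (π.symm a)
      left_inv := fun i => by funext a; simp
      right_inv := fun i => by funext a; simp }
  rw [← E.sum_comp]
  refine Finset.sum_congr rfl fun i _ => ?_
  have h1 : w (E i) = w i := hw.2 π i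
  rw [h1]
  congr 1
  exact Equiv.prod_comp π (fun a => ∏ b, X a (i a b))

lemma exists_perm_of_card {α : Type} [DecidableEq α] (f g : Fin n → α)
    (h : ∀ c, (univ.filter fun b => f b = c).card = (univ.filter fun b => g b = c).card) :
    ∃ σ : Perm (Fin n), ∀ b, g (σ b) = f b := by
  have e : ∀ c, Nonempty ({b // f b = c} ≃ {b // g b = c}) := fun c => by
    refine Fintype.card_eq.1 ?_
    rw [Fintype.card_subtype, Fintype.card_subtype]
    exact h c
  exact ⟨Equiv.ofFiberEquiv fun c => (e c).some,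
    fun b => Equiv.ofFiberEquiv_map (fun c => (e c).some) b⟩

/-- A tensor of `S^n V ⊗ ... ⊗ S^n V` is determined by its pairings. -/
lemma eq_zero_of_ev (w : Tens d n m) (hw : w ∈ symSym d n m) (h : ∀ X, ev w X = 0) : w = 0 := by
  classical
  let mon : (Fin d → Fin n → Fin m) → (Fin d × Fin m →₀ ℕ) := fun i =>
    ∑ a, ∑ b, Finsupp.single (a, i a b) 1
  let p : MvPolynomial (Fin d × Fin m) ℂ := ∑ i, MvPolynomial.monomial (mon i) (w i)
  have hp : p = 0 := by
    refine MvPolynomial.funext fun x => ?_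
    rw [map_zero, map_sum]
    rw [← h (fun a j => x (a, j))]
    unfold ev
    refine Finset.sum_congr rfl fun i _ => ?_
    rw [MvPolynomial.eval_monomial]
    congr 1
    show (∑ a, ∑ b, Finsupp.single (a, i a b) 1).prod _ = _
    rw [← Finsupp.prod_finsetSum_index (by simp) (by intro a b c; exact pow_add _ _ _)]
    refine Finset.prod_congr rfl fun a _ => ?_
    rw [← Finsupp.prod_finsetSum_index (by simp) (by intro a b c; exact pow_add _ _ _)]
    refine Finset.prod_congr rfl fun b _ => ?_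
    rw [Finsupp.prod_single_index (by simp), pow_one]
  have hmon : ∀ (i : Fin d → Fin n → Fin m) (a : Fin d) (c : Fin m),
      mon i (a, c) = (univ.filter fun b => i a b = c).card := by
    intro i a c
    simp only [mon, Finsupp.coe_finsetSum, Finset.sum_apply, Finsupp.single_apply,
      Prod.mk.injEq]
    rw [Finset.sum_eq_single a]
    · rw [Finset.card_filter]
      exact Finset.sum_congr rfl fun b _ => by simp
    · intro a' _ ha'
      exact Finset.sum_eq_zero fun b _ => by simp [ha']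
    · simp
  funext i0
  have h1 : MvPolynomial.coeff (mon i0) p = 0 := by rw [hp]; simp
  have h2 : MvPolynomial.coeff (mon i0) p =
      ((univ.filter fun i => mon i = mon i0).card : ℂ) * w i0 := by
    simp only [p, MvPolynomial.coeff_sum, MvPolynomial.coeff_monomial]
    rw [← Finset.sum_filter, Finset.sum_congr rfl (g := fun _ => w i0), Finset.sum_const,
      nsmul_eq_mul]
    intro i hi
    rw [Finset.mem_filter] at hi
    have h3 : ∀ a, ∃ σ : Perm (Fin n), ∀ b, i0 a (σ b) = i a b := fun a =>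
      exists_perm_of_card _ _ fun c => by rw [← hmon, ← hmon, hi.2]
    choose σ hσ using h3
    rw [← hw.1 σ i0]
    congr 1
    funext a b
    exact (hσ a b).symm
  rw [h2] at h1
  rcases mul_eq_zero.1 h1 with h4 | h4
  · exfalso
    have : (univ.filter fun i => mon i = mon i0).card = 0 := by exact_mod_cast h4
    rw [Finset.card_eq_zero] at this
    have h5 : i0 ∈ (univ.filter fun i => mon i = mon i0) := by simp
    rw [this] at h5
    simp at h5
  · exact h4


/-! ## Highest weight vectors of weight `(d^n)` in `S^n(S^d V)` vanish for odd `d` -/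

lemma prod_lt (hm : n ≤ m) (f : ℕ → ℂ) :
    (∏ i : Fin m, if (i : ℕ) < n then f i else 1) = ∏ b : Fin n, f b := by
  rw [Fin.prod_univ_eq_prod_range (fun i => if i < n then f i else 1) m,
    Fin.prod_univ_eq_prod_range f n]
  rw [← Finset.prod_subset (Finset.range_mono hm)]
  · exact Finset.prod_congr rfl fun i hi => by rw [if_pos (Finset.mem_range.1 hi)]
  · intro i _ hi
    rw [if_neg (by simpa using hi)]

section Vanish

variable {w : Tens n d m}

/-- The `n × m` identity matrix. -/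
def EE (n m : ℕ) : Fin n → Fin m → ℂ := fun b j => if (b : ℕ) = (j : ℕ) then 1 else 0

lemma ev_unip (hw : IsHighest d n w) (X : Fin n → Fin m → ℂ) (g : Matrix (Fin m) (Fin m) ℂ)
    (h1 : ∀ i j, j < i → g i j = 0) (h2 : ∀ i, g i i = 1) :
    ev w (fun b j => ∑ i, X b i * g i j) = ev w X := by
  rw [← ev_act, hw.unip g h1 h2]

lemma ev_diag (hm : n ≤ m) (hw : IsHighest d n w) (X : Fin n → Fin m → ℂ) (t : ℕ → ℂ)
    (ht : ∀ i, t i ≠ 0) :
    ev w (fun b j => X b j * t j) = (∏ b : Fin n, t b ^ d) * ev w X := by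
  have h := ev_act (Matrix.diagonal fun i : Fin m => t i) w X
  rw [hw.weight _ (fun i => ht i), prod_lt hm (fun i => t i ^ d)] at h
  have h2 : ∀ (b : Fin n) (j : Fin m),
      ∑ i, X b i * Matrix.diagonal (fun i : Fin m => t i) i j = X b j * t j := by
    intro b j
    rw [Finset.sum_eq_single j]
    · rw [Matrix.diagonal_apply_eq]
    · intro i _ hi
      rw [Matrix.diagonal_apply_ne _ hi, mul_zero]
    · simp
  simp only [h2] at h
  rw [← h]
  unfold ev
  rw [Finset.mul_sum]
  refine Finset.sum_congr rfl fun i _ => ?_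
  simp only [Pi.smul_apply, smul_eq_mul]
  ring

lemma ev_lower_unip (hm : n ≤ m) (hw : IsHighest d n w) (X : Fin n → Fin m → ℂ)
    (h1 : ∀ (b : Fin n) (j : Fin m), (b : ℕ) < j → X b j = 0)
    (h2 : ∀ (b : Fin n) (j : Fin m), (b : ℕ) = j → X b j = 1) : ev w X = ev w (EE n m) := by
  let Y : ℂ → Fin n → Fin m → ℂ := fun s b j => s ^ ((b : ℕ) - (j : ℕ)) * X b j
  have hc : Continuous fun s => ev w (Y s) := by
    refine (ev_continuous w).comp ?_
    refine continuous_pi fun b => continuous_pi fun j => ?_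
    exact (continuous_pow _).mul continuous_const
  have h3 : ∀ s : ℂ, s ≠ 0 → ev w (Y s) = ev w X := by
    intro s hs
    have h4 : Y s = fun (b : Fin n) (j : Fin m) =>
        (s ^ (b : ℕ) * X b j) * (s ^ (j : ℕ))⁻¹ := by
      funext b j
      show s ^ ((b : ℕ) - (j : ℕ)) * X b j = _
      rcases lt_or_ge (b : ℕ) (j : ℕ) with h | h
      · rw [h1 b j h]; ring
      · rw [pow_sub₀ s hs h]; ring
    rw [h4, ev_diag hm hw (fun (b : Fin n) (j : Fin m) => s ^ (b : ℕ) * X b j) (fun i => (s ^ i)⁻¹)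
      (fun i => inv_ne_zero (pow_ne_zero _ hs)), ev_scale, ← mul_assoc, ← Finset.prod_mul_distrib]
    have h5 : ∀ b : Fin n, ((s ^ (b : ℕ))⁻¹) ^ d * (s ^ (b : ℕ)) ^ d = 1 := fun b => by
      rw [← mul_pow, inv_mul_cancel₀ (pow_ne_zero _ hs), one_pow]
    simp only [h5, Finset.prod_const_one, one_mul]
  have h6 : (fun s => ev w (Y s)) = fun _ => ev w X :=
    Continuous.ext_on (dense_compl_singleton (0 : ℂ)) hc continuous_const fun s hs => h3 s hs
  have h7 : Y 0 = EE n m := by
    funext b j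
    show (0 : ℂ) ^ ((b : ℕ) - (j : ℕ)) * X b j = if (b : ℕ) = (j : ℕ) then 1 else 0
    rcases lt_trichotomy (b : ℕ) (j : ℕ) with h | h | h
    · rw [h1 b j h, if_neg h.ne, mul_zero]
    · rw [h2 b j h, if_pos h, h, Nat.sub_self, pow_zero, one_mul]
    · rw [if_neg h.ne', zero_pow (Nat.sub_ne_zero_of_lt h), zero_mul]
  rw [← h7]
  exact (congrFun h6 0).symm

/-- The identity matrix with the upper left `2 × 2` block replaced. -/
def MM (n m : ℕ) (a b c e : ℂ) : Fin n → Fin m → ℂ := fun i j =>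
  if (i : ℕ) = 0 ∧ (j : ℕ) = 0 then a else if (i : ℕ) = 0 ∧ (j : ℕ) = 1 then b else
  if (i : ℕ) = 1 ∧ (j : ℕ) = 0 then c else if (i : ℕ) = 1 ∧ (j : ℕ) = 1 then e else
  if (i : ℕ) = (j : ℕ) then 1 else 0

lemma ev_col (hn : 2 ≤ n) (hm : n ≤ m) (hw : IsHighest d n w) (a b c e x : ℂ) :
    ev w (MM n m a (b + a * x) c (e + c * x)) = ev w (MM n m a b c e) := by
  let i0 : Fin m := ⟨0, by omega⟩
  let i1 : Fin m := ⟨1, by omega⟩
  let g : Matrix (Fin m) (Fin m) ℂ := fun i j =>
    if i = j then 1 else if i = i0 ∧ j = i1 then x else 0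
  rw [← ev_unip hw (MM n m a b c e) g]
  · congr 1
    funext r j
    have h1 : ∀ i, MM n m a b c e r i * g i j =
        (if i = j then MM n m a b c e r i else 0) +
          (if i = i0 then (if j = i1 then MM n m a b c e r i * x else 0) else 0) := by
      intro i
      show _ * (if i = j then 1 else if i = i0 ∧ j = i1 then x else 0) = _
      have h01 : i0 ≠ i1 := by simp [i0, i1]
      by_cases h2 : i = j
      · by_cases h3 : i = i0
        · have h4 : j ≠ i1 := by rw [← h2, h3]; exact h01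
          rw [if_pos h2, if_pos h2, if_pos h3, if_neg h4]; ring
        · rw [if_pos h2, if_pos h2, if_neg h3]; ring
      · by_cases h3 : i = i0
        · by_cases h4 : j = i1
          · rw [if_neg h2, if_neg h2, if_pos ⟨h3, h4⟩, if_pos h3, if_pos h4]; ring
          · rw [if_neg h2, if_neg h2, if_neg (fun h => h4 h.2), if_pos h3, if_neg h4]; ring
        · rw [if_neg h2, if_neg h2, if_neg (fun h => h3 h.1), if_neg h3]; ring
    simp only [h1, Finset.sum_add_distrib, Finset.sum_ite_eq', Finset.mem_univ, if_true]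
    have hj : (j = i1) ↔ (j : ℕ) = 1 := by
      rw [Fin.ext_iff]
    unfold MM
    rcases Nat.lt_or_ge (r : ℕ) 2 with h5 | h5
    · interval_cases hr : (r : ℕ)
      · by_cases h6 : (j : ℕ) = 0
        · simp [h6, i1, Fin.ext_iff]
        · by_cases h7 : (j : ℕ) = 1
          · simp [h7, i0, i1, Fin.ext_iff]
          · simp [h6, h7, i1, Fin.ext_iff]
      · by_cases h6 : (j : ℕ) = 0
        · simp [h6, i1, Fin.ext_iff]
        · by_cases h7 : (j : ℕ) = 1
          · simp [h7, i0, i1, Fin.ext_iff]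
          · simp [h6, h7, i1, Fin.ext_iff]
    · have h8 : (r : ℕ) ≠ 0 := by omega
      have h9 : (r : ℕ) ≠ 1 := by omega
      simp [h8, h9, i0]
  · intro i j hij
    have h1 : i ≠ j := hij.ne'
    have h2 : ¬ (i = i0 ∧ j = i1) := by
      rintro ⟨rfl, rfl⟩
      simp [i0, i1, Fin.lt_def] at hij
    show (if i = j then (1 : ℂ) else if i = i0 ∧ j = i1 then x else 0) = 0
    rw [if_neg h1, if_neg h2]
  · intro i
    show (if i = i then (1 : ℂ) else _) = 1
    rw [if_pos rfl]

lemma ev_neg (hd : Odd d) (hn : 2 ≤ n) (hm : n ≤ m) (hw : IsHighest d n w) (a b c e : ℂ) :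
    ev w (MM n m a (-b) c (-e)) = - ev w (MM n m a b c e) := by
  have h := ev_diag hm hw (MM n m a b c e) (fun i => if i = 1 then -1 else 1) (fun i => by
    by_cases h : i = 1 <;> simp [h])
  have h2 : (fun (r : Fin n) (j : Fin m) => MM n m a b c e r j * (if (j : ℕ) = 1 then -1 else 1)) =
      MM n m a (-b) c (-e) := by
    funext r j
    unfold MM
    by_cases h6 : (j : ℕ) = 0
    · simp [h6]
    · by_cases h7 : (j : ℕ) = 1
      · by_cases h8 : (r : ℕ) = 0
        · simp [h7, h8]
        · by_cases h9 : (r : ℕ) = 1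
          · simp [h7, h9]
          · simp [h7, h8, h9]
      · simp [h6, h7]
  rw [h2] at h
  rw [h]
  have h3 : (∏ b : Fin n, (if (b : ℕ) = 1 then (-1 : ℂ) else 1) ^ d) = -1 := by
    rw [Finset.prod_eq_single (⟨1, by omega⟩ : Fin n)]
    · simp [hd.neg_one_pow]
    · intro b _ hb
      have : (b : ℕ) ≠ 1 := fun h => hb (Fin.ext h)
      simp [this]
    · simp
  rw [h3]
  ring

lemma ev_swap (hn : 2 ≤ n) (hs : w ∈ symSym n d m) (a b c e : ℂ) :
    ev w (MM n m c e a b) = ev w (MM n m a b c e) := by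
  let r0 : Fin n := ⟨0, by omega⟩
  let r1 : Fin n := ⟨1, by omega⟩
  rw [← ev_perm w hs (MM n m a b c e) (Equiv.swap r0 r1)]
  congr 1
  funext r j
  unfold MM
  have e0 : (r0 : ℕ) = 0 := rfl
  have e1 : (r1 : ℕ) = 1 := rfl
  by_cases h0 : r = r0
  · rw [h0, Equiv.swap_apply_left, e0, e1]
    by_cases h6 : (j : ℕ) = 0
    · simp [h6]
    · by_cases h7 : (j : ℕ) = 1
      · simp [h7]
      · simp [h6, h7, Ne.symm h6, Ne.symm h7]
  · by_cases h1 : r = r1
    · rw [h1, Equiv.swap_apply_right, e0, e1]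
      by_cases h6 : (j : ℕ) = 0
      · simp [h6]
      · by_cases h7 : (j : ℕ) = 1
        · simp [h7]
        · simp [h6, h7, Ne.symm h6, Ne.symm h7]
    · rw [Equiv.swap_apply_of_ne_of_ne h0 h1]
      have h2 : (r : ℕ) ≠ 0 := fun h => h0 (Fin.ext h)
      have h3 : (r : ℕ) ≠ 1 := fun h => h1 (Fin.ext h)
      simp [h2, h3]

lemma ev_EE (hd : Odd d) (hn : 2 ≤ n) (hm : n ≤ m) (hs : w ∈ symSym n d m)
    (hw : IsHighest d n w) : ev w (EE n m) = 0 := by
  have h1 : ev w (MM n m 1 0 1 1) = ev w (EE n m) := by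
    refine ev_lower_unip hm hw _ ?_ ?_
    · intro b j hbj
      unfold MM
      have h2 : (j : ℕ) ≠ 0 := by omega
      by_cases h3 : (b : ℕ) = 0
      · by_cases h4 : (j : ℕ) = 1
        · simp [h3, h4]
        · simp [h3, h2, h4, h2.symm]
      · have h4 : (j : ℕ) ≠ 1 := by omega
        simp [h3, h2, h4, hbj.ne]
    · intro b j hbj
      unfold MM
      rw [← hbj]
      by_cases h3 : (b : ℕ) = 0
      · simp [h3]
      · by_cases h4 : (b : ℕ) = 1
        · simp [h4]
        · simp [h3, h4]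
  have h2 := ev_col hn hm hw 1 0 1 1 1
  have h3 := ev_swap hn hs (1 : ℂ) 1 1 2
  have h4 := ev_neg hd hn hm hw 1 0 1 1
  have h5 := ev_col hn hm hw 1 (-0) 1 (-1) 2
  norm_num at h2 h3 h4 h5
  have h6 : ev w (EE n m) = - ev w (EE n m) := by
    calc ev w (EE n m) = ev w (MM n m 1 1 1 2) := by rw [h2, h1]
      _ = ev w (MM n m 1 2 1 1) := h3.symm
      _ = ev w (MM n m 1 0 1 (-1)) := h5
      _ = - ev w (EE n m) := by rw [h4, h1]
  exact self_eq_neg.1 h6

/-- It is enough to consider matrices with non-zero diagonal entries. -/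
lemma ev_perturb (X : Fin n → Fin m → ℂ)
    (h : ∀ ε : ℂ, (∀ (b : Fin n) (j : Fin m), (b : ℕ) = j → X b j + ε ≠ 0) →
      ev w (fun b j => X b j + ε * EE n m b j) = 0) : ev w X = 0 := by
  let S : Set ℂ := ⋃ b : Fin n, ⋃ j : Fin m, {- X b j}
  have hS : S.Countable :=
    Set.countable_iUnion fun b => Set.countable_iUnion fun j => Set.countable_singleton _
  have hS2 : Dense Sᶜ := hS.dense_compl ℂ
  let Y : ℂ → Fin n → Fin m → ℂ := fun ε b j => X b j + ε * EE n m b j
  have hY : Continuous Y :=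
    continuous_pi fun b => continuous_pi fun j =>
      continuous_const.add (continuous_id.mul continuous_const)
  have hc : Continuous fun ε : ℂ => ev w (Y ε) := (ev_continuous w).comp hY
  have hon : Set.EqOn (fun ε : ℂ => ev w (Y ε)) (fun _ => (0 : ℂ)) Sᶜ := by
    intro ε hε
    refine h ε fun b j _ h0 => hε ?_
    refine Set.mem_iUnion.2 ⟨b, Set.mem_iUnion.2 ⟨j, ?_⟩⟩
    exact Set.mem_singleton_iff.2 (eq_neg_of_add_eq_zero_right h0)
  have h1 : (fun ε : ℂ => ev w (Y ε)) = fun _ => (0 : ℂ) :=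
    Continuous.ext_on hS2 hc continuous_const hon
  have h2 : ev w (Y 0) = 0 := congrFun h1 0
  have h3 : Y 0 = X := by
    funext b j
    show X b j + 0 * EE n m b j = X b j
    ring
  rw [← h3]
  exact h2

lemma ev_cleared (hd : Odd d) (hn : 2 ≤ n) (hm : n ≤ m) (hs : w ∈ symSym n d m)
    (hw : IsHighest d n w) (t : ℕ) : ∀ k, k + t = n → ∀ X : Fin n → Fin m → ℂ,
      (∀ (b : Fin n) (j : Fin m), (b : ℕ) < k → (b : ℕ) < j → X b j = 0) → ev w X = 0 := by
  induction t with
  | zero =>
    intro k hk X hX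
    refine ev_perturb X fun ε hε => ?_
    let D : Fin n → ℂ := fun b => X b (Fin.castLE hm b) + ε
    have hD : ∀ b, D b ≠ 0 := fun b => hε b (Fin.castLE hm b) rfl
    have h1 : (fun b j => X b j + ε * EE n m b j) =
        fun b j => D b * ((D b)⁻¹ * (X b j + ε * EE n m b j)) := by
      funext b j
      rw [← mul_assoc, mul_inv_cancel₀ (hD b), one_mul]
    rw [h1, ev_scale, ev_lower_unip hm hw, ev_EE hd hn hm hs hw, mul_zero]
    · intro b j hbj
      rw [hX b j (by omega) hbj]
      unfold EE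
      rw [if_neg hbj.ne]
      ring
    · intro b j hbj
      have h2 : j = Fin.castLE hm b := Fin.ext hbj.symm
      subst h2
      unfold EE
      rw [if_pos hbj, mul_one]
      exact inv_mul_cancel₀ (hD b)
  | succ t ih =>
    intro k hk X hX
    refine ev_perturb X fun ε hε => ?_
    let Y : Fin n → Fin m → ℂ := fun b j => X b j + ε * EE n m b j
    show ev w Y = 0
    let kn : Fin n := ⟨k, by omega⟩
    let km : Fin m := ⟨k, by omega⟩
    have hc : Y kn km ≠ 0 := by
      have := hε kn km rfl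
      show X kn km + ε * EE n m kn km ≠ 0
      unfold EE
      rw [if_pos rfl, mul_one]
      exact this
    let g : Matrix (Fin m) (Fin m) ℂ := fun i j =>
      if i = j then 1 else if i = km ∧ km < j then - Y kn j / Y kn km else 0
    rw [← ev_unip hw Y g]
    · refine ih (k + 1) (by omega) _ ?_
      intro b j hbk hbj
      have h1 : ∀ i, Y b i * g i j = (if i = j then Y b i else 0) +
          (if i = km then (if km < j then Y b i * (- Y kn j / Y kn km) else 0) else 0) := by
        intro i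
        show _ * (if i = j then 1 else if i = km ∧ km < j then - Y kn j / Y kn km else 0) = _
        by_cases h2 : i = j
        · by_cases h3 : i = km
          · have h4 : ¬ km < j := by rw [← h2, h3]; exact lt_irrefl _
            rw [if_pos h2, if_pos h2, if_pos h3, if_neg h4]; ring
          · rw [if_pos h2, if_pos h2, if_neg h3]; ring
        · by_cases h3 : i = km
          · by_cases h4 : km < j
            · rw [if_neg h2, if_neg h2, if_pos ⟨h3, h4⟩, if_pos h3, if_pos h4]; ring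
            · rw [if_neg h2, if_neg h2, if_neg (fun h => h4 h.2), if_pos h3, if_neg h4]; ring
          · rw [if_neg h2, if_neg h2, if_neg (fun h => h3 h.1), if_neg h3]; ring
      simp only [h1, Finset.sum_add_distrib, Finset.sum_ite_eq', Finset.mem_univ, if_true]
      have hY : ∀ (b : Fin n) (j : Fin m), (b : ℕ) < k → (b : ℕ) < j → Y b j = 0 := by
        intro b j h5 h6
        show X b j + ε * EE n m b j = 0
        unfold EE
        rw [hX b j h5 h6, if_neg h6.ne]
        ring
      rcases Nat.lt_succ_iff_lt_or_eq.1 hbk with h5 | h5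
      · rw [hY b j h5 hbj, hY b km h5 h5]
        simp
      · have h6 : b = kn := Fin.ext h5
        subst h6
        have h7 : km < j := hbj
        rw [if_pos h7, mul_div_assoc', mul_neg, mul_comm, neg_div, mul_div_cancel_right₀ _ hc]
        ring
    · intro i j hij
      have h1 : i ≠ j := hij.ne'
      have h2 : ¬ (i = km ∧ km < j) := by
        rintro ⟨rfl, h3⟩
        exact lt_asymm h3 hij
      show (if i = j then (1 : ℂ) else if i = km ∧ km < j then _ else 0) = 0
      rw [if_neg h1, if_neg h2]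
    · intro i
      show (if i = i then (1 : ℂ) else _) = 1
      rw [if_pos rfl]

/-- For odd `d` and `n ≥ 2` there is no non-zero highest weight vector of weight `(d^n)` in
`S^n(S^d V)`. -/
theorem highest_eq_zero (hd : Odd d) (hn : 2 ≤ n) (hm : n ≤ m) (hs : w ∈ symSym n d m)
    (hw : IsHighest d n w) : w = 0 :=
  eq_zero_of_ev w hs fun X => ev_cleared hd hn hm hs hw n 0 (by omega) X fun b j h => by omega

end Vanish

/-! ## The map `hhh` is equivariant, with values in `S^n(S^d V)` -/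

lemma prod_reindex (ρ : Perm (Fin n)) (σ : Fin n → Perm (Fin d)) (F : Fin n → Fin d → ℂ) :
    ∏ a, ∏ b, F (ρ b) (σ b a) = ∏ b, ∏ a, F b a := by
  rw [Finset.prod_comm, ← Equiv.prod_comp ρ (fun b => ∏ a, F b a)]
  exact Finset.prod_congr rfl fun b _ => Equiv.prod_comp (σ b) (fun a => F (ρ b) a)

/-- The regrouping of the indices, followed by the permutations `ρ` and `σ`. -/
def regroup (m : ℕ) (ρ : Perm (Fin n)) (σ : Fin n → Perm (Fin d)) :
    (Fin n → Fin d → Fin m) ≃ (Fin d → Fin n → Fin m) where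
  toFun v := fun a b => v (ρ b) (σ b a)
  invFun j := fun b a => j ((σ (ρ.symm b)).symm a) (ρ.symm b)
  left_inv v := by
    funext b a
    simp
  right_inv j := by
    funext a b
    simp

lemma hhh_apply (w : Tens d n m) (u : Fin n → Fin d → Fin m) :
    hhh d n m w u = ((d.factorial ^ n * n.factorial : ℕ) : ℂ)⁻¹ *
      ∑ ρ : Perm (Fin n), ∑ σ : Fin n → Perm (Fin d), w (regroup m ρ σ u) := rfl

lemma act_apply (g : Matrix (Fin m) (Fin m) ℂ) (w : Tens d n m) (i : Fin d → Fin n → Fin m) :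
    act g w i = ∑ j, (∏ a, ∏ b, g (i a b) (j a b)) * w j := rfl

lemma hhh_act (g : Matrix (Fin m) (Fin m) ℂ) (w : Tens d n m) :
    hhh d n m (act g w) = act g (hhh d n m w) := by
  funext u
  have h : ∀ (ρ : Perm (Fin n)) (σ : Fin n → Perm (Fin d)), act g w (regroup m ρ σ u) =
      ∑ v : Fin n → Fin d → Fin m, (∏ b, ∏ a, g (u b a) (v b a)) * w (regroup m ρ σ v) := by
    intro ρ σ
    rw [act_apply, ← Equiv.sum_comp (regroup m ρ σ)]
    refine Finset.sum_congr rfl fun v _ => ?_
    congr 1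
    exact prod_reindex ρ σ (fun b a => g (u b a) (v b a))
  rw [hhh_apply, act_apply]
  simp only [hhh_apply, h]
  have h2 : ∀ v : Fin n → Fin d → Fin m, (∏ b, ∏ a, g (u b a) (v b a)) *
      (((d.factorial ^ n * n.factorial : ℕ) : ℂ)⁻¹ *
        ∑ ρ : Perm (Fin n), ∑ σ : Fin n → Perm (Fin d), w (regroup m ρ σ v)) =
      ((d.factorial ^ n * n.factorial : ℕ) : ℂ)⁻¹ *
        ∑ ρ : Perm (Fin n), ∑ σ : Fin n → Perm (Fin d),
          (∏ b, ∏ a, g (u b a) (v b a)) * w (regroup m ρ σ v) := by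
    intro v
    rw [mul_left_comm]
    congr 1
    rw [Finset.mul_sum]
    exact Finset.sum_congr rfl fun ρ _ => Finset.mul_sum _ _ _
  simp only [h2]
  conv_rhs => rw [← Finset.mul_sum, Finset.sum_comm]
  congr 1
  refine Finset.sum_congr rfl fun ρ _ => ?_
  conv_rhs => rw [Finset.sum_comm]

lemma hhh_mem (w : Tens d n m) : hhh d n m w ∈ symSym n d m := by
  constructor
  · intro τ u
    rw [hhh_apply, hhh_apply]
    congr 1
    refine Finset.sum_congr rfl fun ρ _ => ?_
    exact Equiv.sum_comp (Equiv.piCongrRight fun b => Equiv.mulLeft (τ (ρ b)))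
      (fun σ => w (regroup m ρ σ u))
  · intro π u
    rw [hhh_apply, hhh_apply]
    congr 1
    exact Equiv.sum_comp (Equiv.mulLeft π)
      (fun ρ => ∑ σ : Fin n → Perm (Fin d), w (regroup m ρ σ u))

lemma hhh_highest {k l : ℕ} {w : Tens d n m} (hw : IsHighest k l w) :
    IsHighest k l (hhh d n m w) where
  unip g h1 h2 := by rw [← hhh_act, hw.unip g h1 h2]
  weight t ht := by rw [← hhh_act, hw.weight t ht, map_smul]

theorem isotypic_le_ker (hd : Odd d) (hn : 2 ≤ n) (hm : n ≤ m) :
    isotypic d n m ≤ LinearMap.ker (hhh d n m) := by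
  refine Submodule.span_le.2 ?_
  rintro x ⟨g, w, _, hw, rfl⟩
  show hhh d n m (act g.val w) = 0
  rw [hhh_act, highest_eq_zero hd hn hm (hhh_mem w) (hhh_highest hw), map_zero]

/-! ## `S_{(7^4)} V` occurs in `S^7(S^4 V)` -/

section Exist

/-- The determinant of the `4` basis vectors `e_{f 0}, ..., e_{f 3}`, projected to the span of the
first four basis vectors. -/
noncomputable def eps (f : Fin 4 → Fin m) : ℂ :=
  (Matrix.of fun k l : Fin 4 => if (f k : ℕ) = (l : ℕ) then (1 : ℂ) else 0).det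

lemma det_rows (B : Matrix (Fin 4) (Fin 4) ℂ) :
    B.det = ∑ σ : Perm (Fin 4), ((Perm.sign σ : ℤ) : ℂ) * ∏ k, B k (σ k) := by
  rw [← Matrix.det_transpose, Matrix.det_apply']
  rfl

lemma det_sum (hm : 4 ≤ m) (A : Fin 4 → Fin m → ℂ) :
    ∑ f : Fin 4 → Fin m, (∏ k, A k (f k)) * eps f =
      (Matrix.of fun k l : Fin 4 => A k (Fin.castLE hm l)).det := by
  have h2 : ∀ f : Fin 4 → Fin m, (∏ k, A k (f k)) * eps f =
      ∑ σ : Perm (Fin 4), ((Perm.sign σ : ℤ) : ℂ) *
        ∏ k, (A k (f k) * if (f k : ℕ) = (σ k : ℕ) then (1 : ℂ) else 0) := by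
    intro f
    unfold eps
    rw [det_rows, Finset.mul_sum]
    refine Finset.sum_congr rfl fun σ _ => ?_
    simp only [Matrix.of_apply, Finset.prod_mul_distrib]
    ring
  rw [Finset.sum_congr rfl fun f _ => h2 f, Finset.sum_comm, det_rows]
  refine Finset.sum_congr rfl fun σ _ => ?_
  rw [← Finset.mul_sum]
  congr 1
  have h3 := (Fintype.prod_sum fun (k : Fin 4) (x : Fin m) =>
    A k x * if (x : ℕ) = (σ k : ℕ) then (1 : ℂ) else 0).symm
  rw [h3]
  refine Finset.prod_congr rfl fun k _ => ?_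
  rw [Finset.sum_eq_single (Fin.castLE hm (σ k)), Matrix.of_apply]
  · simp
  · intro x _ hx
    have h4 : ¬ ((x : ℕ) = (σ k : ℕ)) := fun h => hx (Fin.ext h)
    rw [if_neg h4, mul_zero]
  · simp

lemma det_upper (hm : 4 ≤ m) (g : Matrix (Fin m) (Fin m) ℂ) (hg : ∀ i j, j < i → g i j = 0)
    (f : Fin 4 → Fin m) :
    (Matrix.of fun k l : Fin 4 => g (f k) (Fin.castLE hm l)).det =
      (∏ l : Fin 4, g (Fin.castLE hm l) (Fin.castLE hm l)) * eps f := by
  let G : Matrix (Fin 4) (Fin 4) ℂ := Matrix.of fun k l => g (Fin.castLE hm k) (Fin.castLE hm l)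
  have h1 : (Matrix.of fun k l : Fin 4 => g (f k) (Fin.castLE hm l)) =
      (Matrix.of fun k l : Fin 4 => if (f k : ℕ) = (l : ℕ) then (1 : ℂ) else 0) * G := by
    ext k l
    rw [Matrix.mul_apply, Matrix.of_apply]
    by_cases h : (f k : ℕ) < 4
    · rw [Finset.sum_eq_single (⟨f k, h⟩ : Fin 4)]
      · rw [Matrix.of_apply, if_pos rfl, one_mul]
        rfl
      · intro x _ hx
        rw [Matrix.of_apply, if_neg (fun h2 => hx (Fin.ext h2.symm)), zero_mul]
      · simp
    · rw [Finset.sum_eq_zero]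
      · refine hg _ _ ?_
        show (l : ℕ) < (f k : ℕ)
        omega
      · intro x _
        rw [Matrix.of_apply, if_neg (by omega), zero_mul]
  rw [h1, Matrix.det_mul, mul_comm]
  congr 1
  have h2 : G.BlockTriangular id := fun i j hij => hg _ _ hij
  rw [Matrix.det_of_isUpperTriangular h2]
  rfl

/-- The base blocks `{2, 4, 5, 6}` (the complement of a line of the Fano plane), ordered. -/
def cc : Fin 4 → Fin 7 := ![2, 4, 5, 6]

/-- The product of seven determinants, the `t`-th one in the places `(c_k + t, k)`. -/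
noncomputable def tau (m : ℕ) : Tens 4 7 m := fun j => ∏ t : Fin 7, eps fun k => j k (cc k + t)

/-- The reindexing by the places of the determinants. -/
def CE (m : ℕ) : (Fin 7 → Fin 4 → Fin m) ≃ (Fin 4 → Fin 7 → Fin m) where
  toFun F := fun k s => F (s - cc k) k
  invFun j := fun t k => j k (t + cc k)
  left_inv F := by funext t k; simp
  right_inv j := by funext k s; simp

lemma CE_apply (F : Fin 7 → Fin 4 → Fin m) (k : Fin 4) (t : Fin 7) :
    CE m F k (cc k + t) = F t k := by
  show F (cc k + t - cc k) k = F t k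
  rw [add_sub_cancel_left]

lemma main_sum (hm : 4 ≤ m) (A : Fin 4 → Fin 7 → Fin m → ℂ) :
    ∑ j : Fin 4 → Fin 7 → Fin m, (∏ k, ∏ s, A k s (j k s)) * tau m j =
      ∏ t : Fin 7, (Matrix.of fun k l : Fin 4 => A k (cc k + t) (Fin.castLE hm l)).det := by
  have h1 : ∀ F : Fin 7 → Fin 4 → Fin m, (∏ k, ∏ s, A k s (CE m F k s)) * tau m (CE m F) =
      ∏ t : Fin 7, ((∏ k, A k (cc k + t) (F t k)) * eps (F t)) := by
    intro F
    have h3 : ∀ k, ∏ s, A k s (CE m F k s) = ∏ t, A k (cc k + t) (F t k) := fun k => by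
      rw [← Equiv.prod_comp (Equiv.addLeft (cc k)) (fun s => A k s (CE m F k s))]
      refine Finset.prod_congr rfl fun t _ => ?_
      rw [Equiv.coe_addLeft, CE_apply]
    have h4 : tau m (CE m F) = ∏ t, eps (F t) :=
      Finset.prod_congr rfl fun t _ => congrArg eps (funext fun k => CE_apply F k t)
    rw [Finset.prod_mul_distrib, Finset.prod_congr rfl fun k _ => h3 k, Finset.prod_comm, h4]
  rw [← Equiv.sum_comp (CE m), Finset.sum_congr rfl fun F _ => h1 F]
  have h2 := (Fintype.prod_sum fun (t : Fin 7) (f : Fin 4 → Fin m) =>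
    (∏ k, A k (cc k + t) (f k)) * eps f).symm
  rw [h2]
  exact Finset.prod_congr rfl fun t _ => det_sum hm _

lemma tau_act (hm : 4 ≤ m) (g : Matrix (Fin m) (Fin m) ℂ) (hg : ∀ i j, j < i → g i j = 0) :
    act g (tau m) = (∏ l : Fin 4, g (Fin.castLE hm l) (Fin.castLE hm l)) ^ 7 • tau m := by
  funext i
  rw [act_apply, main_sum hm fun k s x => g (i k s) x]
  simp only [det_upper hm g hg (fun k => i k (cc k + _))]
  rw [Finset.prod_mul_distrib, Finset.prod_const, Finset.card_univ, Fintype.card_fin]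
  rfl

lemma tau_highest (hm : 4 ≤ m) : IsHighest 7 4 (tau m) where
  unip g h1 h2 := by
    rw [tau_act hm g h1]
    simp only [h2, Finset.prod_const_one, one_pow, one_smul]
  weight t ht := by
    rw [tau_act hm _ fun i j hij => Matrix.diagonal_apply_ne _ hij.ne']
    simp only [Matrix.diagonal_apply_eq]
    rw [← Finset.prod_pow]
    have h1 := prod_lt hm (fun i => if h : i < m then t ⟨i, h⟩ ^ 7 else 1)
    have h2 : ∀ i : Fin m, (if (i : ℕ) < 4 then
        (fun i : ℕ => if h : i < m then t ⟨i, h⟩ ^ 7 else 1) i else 1) =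
        if (i : ℕ) < 4 then t i ^ 7 else 1 := fun i => by
      simp only [i.isLt, dif_pos]
    have h3 : ∀ b : Fin 4, (fun i : ℕ => if h : i < m then t ⟨i, h⟩ ^ 7 else 1) b =
        t (Fin.castLE hm b) ^ 7 := fun b => by
      have h4 : (b : ℕ) < m := by omega
      simp only [h4, dif_pos]
      rfl
    rw [Finset.prod_congr rfl fun i _ => h2 i, Finset.prod_congr rfl fun b _ => h3 b] at h1
    rw [h1]

lemma ev_hhh (w : Tens d n m) (X : Fin n → Fin m → ℂ) :
    ev (hhh d n m w) X = ((d.factorial ^ n * n.factorial : ℕ) : ℂ)⁻¹ *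
      (((d.factorial ^ n : ℕ) : ℂ) *
        ∑ ρ : Perm (Fin n), ∑ j, (∏ a, ∏ b, X (ρ b) (j a b)) * w j) := by
  have h1 : ∀ (ρ : Perm (Fin n)) (σ : Fin n → Perm (Fin d)),
      ∑ u : Fin n → Fin d → Fin m, w (regroup m ρ σ u) * ∏ b, ∏ a, X b (u b a) =
        ∑ j, (∏ a, ∏ b, X (ρ b) (j a b)) * w j := by
    intro ρ σ
    rw [← Equiv.sum_comp (regroup m ρ σ)]
    refine Finset.sum_congr rfl fun u _ => ?_
    rw [mul_comm]
    congr 1
    exact (prod_reindex ρ σ (fun b a => X b (u b a))).symm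
  have h2 : ev (hhh d n m w) X = ((d.factorial ^ n * n.factorial : ℕ) : ℂ)⁻¹ *
      ∑ ρ : Perm (Fin n), ∑ σ : Fin n → Perm (Fin d),
        ∑ u : Fin n → Fin d → Fin m, w (regroup m ρ σ u) * ∏ b, ∏ a, X b (u b a) := by
    unfold ev
    have h3 : ∀ u : Fin n → Fin d → Fin m, hhh d n m w u * ∏ b, ∏ a, X b (u b a) =
        ((d.factorial ^ n * n.factorial : ℕ) : ℂ)⁻¹ *
          ∑ ρ : Perm (Fin n), ∑ σ : Fin n → Perm (Fin d),
            w (regroup m ρ σ u) * ∏ b, ∏ a, X b (u b a) := by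
      intro u
      rw [hhh_apply, mul_assoc, Finset.sum_mul]
      congr 1
      exact Finset.sum_congr rfl fun ρ _ => Finset.sum_mul _ _ _
    rw [Finset.sum_congr rfl fun u _ => h3 u, ← Finset.mul_sum, Finset.sum_comm]
    congr 1
    refine Finset.sum_congr rfl fun ρ _ => ?_
    rw [Finset.sum_comm]
  rw [h2]
  congr 1
  rw [Finset.mul_sum]
  refine Finset.sum_congr rfl fun ρ _ => ?_
  rw [Finset.sum_congr rfl fun σ _ => h1 ρ σ, Finset.sum_const, nsmul_eq_mul, Finset.card_univ,
    Fintype.card_fun, Fintype.card_perm, Fintype.card_fin, Fintype.card_fin]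

/-- The point at which the invariant is evaluated. -/
def XX (m : ℕ) : Fin 7 → Fin m → ℂ := fun b j => ((Pool.Agent.R718.FanoSum.XN b j : ℤ) : ℂ)

open Pool.Agent.R718.FanoSum in
lemma tau_XX (hm : 4 ≤ m) (ρ : Perm (Fin 7)) :
    ∑ j : Fin 4 → Fin 7 → Fin m, (∏ k, ∏ s, XX m (ρ s) (j k s)) * tau m j = ((FF ρ : ℤ) : ℂ) := by
  rw [main_sum hm fun k s x => XX m (ρ s) x]
  have h1 : ∀ t : Fin 7,
      (Matrix.of fun k l : Fin 4 => XX m (ρ (cc k + t)) (Fin.castLE hm l)).det =
        ((D4 (ρ (cc 0 + t)).val (ρ (cc 1 + t)).val (ρ (cc 2 + t)).val (ρ (cc 3 + t)).val : ℤ) :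
          ℂ) := fun t => det_XN fun k => (ρ (cc k + t)).val
  rw [Finset.prod_congr rfl fun t _ => h1 t, ← Int.cast_prod]
  congr 1
  rw [FF_eq, Fin.prod_univ_seven]
  have e : ∀ x y z : Fin 7, x + y = z → ρ (x + y) = ρ z := fun x y z h => by rw [h]
  rw [show cc 0 = 2 from rfl, show cc 1 = 4 from rfl, show cc 2 = 5 from rfl,
    show cc 3 = 6 from rfl]
  simp only [show (2 : Fin 7) + 0 = 2 from rfl, show (2 : Fin 7) + 1 = 3 from rfl,
    show (2 : Fin 7) + 2 = 4 from rfl, show (2 : Fin 7) + 3 = 5 from rfl,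
    show (2 : Fin 7) + 4 = 6 from rfl, show (2 : Fin 7) + 5 = 0 from rfl,
    show (2 : Fin 7) + 6 = 1 from rfl,
    show (4 : Fin 7) + 0 = 4 from rfl, show (4 : Fin 7) + 1 = 5 from rfl,
    show (4 : Fin 7) + 2 = 6 from rfl, show (4 : Fin 7) + 3 = 0 from rfl,
    show (4 : Fin 7) + 4 = 1 from rfl, show (4 : Fin 7) + 5 = 2 from rfl,
    show (4 : Fin 7) + 6 = 3 from rfl,
    show (5 : Fin 7) + 0 = 5 from rfl, show (5 : Fin 7) + 1 = 6 from rfl,
    show (5 : Fin 7) + 2 = 0 from rfl, show (5 : Fin 7) + 3 = 1 from rfl,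
    show (5 : Fin 7) + 4 = 2 from rfl, show (5 : Fin 7) + 5 = 3 from rfl,
    show (5 : Fin 7) + 6 = 4 from rfl,
    show (6 : Fin 7) + 0 = 6 from rfl, show (6 : Fin 7) + 1 = 0 from rfl,
    show (6 : Fin 7) + 2 = 1 from rfl, show (6 : Fin 7) + 3 = 2 from rfl,
    show (6 : Fin 7) + 4 = 3 from rfl, show (6 : Fin 7) + 5 = 4 from rfl,
    show (6 : Fin 7) + 6 = 5 from rfl]
  ring

open Pool.Agent.R718.FanoSum in
theorem hhh_tau_ne (hm : 4 ≤ m) : hhh 4 7 m (tau m) ≠ 0 := by
  intro h
  have h1 := ev_hhh (tau m) (XX m)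
  rw [h, Finset.sum_congr rfl fun ρ _ => tau_XX hm ρ, ← Int.cast_sum, sum_perm, T_val] at h1
  have h2 : ev (0 : Tens 7 4 m) (XX m) = 0 := by
    unfold ev
    exact Finset.sum_eq_zero fun i _ => by rw [Pi.zero_apply, zero_mul]
  rw [h2] at h1
  have h3 : ((Nat.factorial 4 ^ 7 * Nat.factorial 7 : ℕ) : ℂ)⁻¹ *
      (((Nat.factorial 4 ^ 7 : ℕ) : ℂ) * ((-2016 : ℤ) : ℂ)) ≠ 0 := by
    refine mul_ne_zero (inv_ne_zero ?_) (mul_ne_zero ?_ ?_)
    · exact_mod_cast (Nat.mul_pos (pow_pos (Nat.factorial_pos 4) 7) (Nat.factorial_pos 7)).ne'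
    · exact_mod_cast (pow_pos (Nat.factorial_pos 4) 7).ne'
    · norm_num
  exact h3 h1.symm

/-- The identity matrix acts as the identity. -/
lemma act_one (w : Tens d n m) : act 1 w = w := by
  funext i
  rw [act_apply, Finset.sum_eq_single i]
  · simp
  · intro j _ hj
    have h1 : ∃ a b, i a b ≠ j a b := by
      by_contra h
      push Not at h
      exact hj (funext fun a => funext fun b => (h a b).symm)
    obtain ⟨a, b, hab⟩ := h1
    have h2 : ∏ b, (1 : Matrix (Fin m) (Fin m) ℂ) (i a b) (j a b) = 0 := by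
      refine Finset.prod_eq_zero (Finset.mem_univ b) ?_
      exact Matrix.one_apply_ne hab
    rw [Finset.prod_eq_zero (Finset.mem_univ a) h2, zero_mul]
  · simp

theorem isotypic_ne_bot (hm : 4 ≤ m) : isotypic 7 4 m ≠ ⊥ := by
  intro h
  have h1 : hhh 4 7 m (tau m) ∈ isotypic 7 4 m := by
    refine Submodule.subset_span ⟨1, hhh 4 7 m (tau m), hhh_mem _, hhh_highest (tau_highest hm), ?_⟩
    rw [Units.val_one, act_one]
  rw [h, Submodule.mem_bot] at h1
  exact hhh_tau_ne hm h1

end Exist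

/-- **Main result.**
(1) The Hermite-Hadamard-Howe map `h_{d,n}` vanishes on the `S_{(d^n)}V`-isotypic component of
`S^d(S^n V)` for every odd `d`, every `n ≥ 2` and every `V` of dimension `m ≥ n`.
(2) `S_{(7^4)}V` occurs in `S^7(S^4 V)` for every `V` of dimension `m ≥ 4`.
So for `(d, n) = (7, 4)` the module occurs and `h_{7,4}` vanishes identically on it. -/
theorem result :
    (∀ d n m : ℕ, Odd d → 2 ≤ n → n ≤ m → isotypic d n m ≤ LinearMap.ker (hhh d n m)) ∧
    (∀ m : ℕ, 4 ≤ m → isotypic 7 4 m ≠ ⊥) :=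
  ⟨fun _ _ _ hd hn hm => isotypic_le_ker hd hn hm, fun _ hm => isotypic_ne_bot hm⟩

/-- The negated form of the question. -/
theorem negated_form : ∃ d n : ℕ, 1 ≤ d ∧ 1 ≤ n ∧
    ∀ m : ℕ, n ≤ m → isotypic d n m ≠ ⊥ ∧ isotypic d n m ≤ LinearMap.ker (hhh d n m) :=
  ⟨7, 4, by norm_num, by norm_num, fun _ hm =>
    ⟨isotypic_ne_bot hm, isotypic_le_ker (by decide) (by norm_num) hm⟩⟩

end Pool.Agent.Results.MP_96ff56_al.OddDegree
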